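import Mathlib
import Pool.Agent.Results.MP_c5a493_nt.UniformBound

namespace Pool.Agent.Results.MP_c5a493_nt.KhintchineTypeUniform

open MeasureTheory Metric Set Polynomial
open Pool.Agent.Results.MP_c5a493_nt.UniformBound

/-- bad sets with a general error term `s n k` in the dyadic block `2 ^ k ≤ H < 2 ^ (k + 1)` -/
def BadS (s : ℕ → ℕ → ℝ) (n k : ℕ) (N : ℝ) : Set ℝ :=
  {x ∈ ball (0 : ℝ) N | ∃ P : ℤ[X], P.natDegree = n ∧ 2 ^ k ≤ height P ∧ height P < 2 ^ (k + 1) ∧
    |aeval x P| ≤ Real.exp (-(n * Real.log (height P)) - s n k - KK n)}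

theorem log_two_pos : 0 < Real.log 2 := Real.log_pos (by norm_num)

theorem log_two_ge : 1 / 2 ≤ Real.log 2 := by
  have := Real.log_two_gt_d9
  linarith

theorem log_two_le : Real.log 2 ≤ 1 := by
  have := Real.log_le_sub_one_of_pos (show (0 : ℝ) < 2 by norm_num)
  linarith

/-- for `k = 0` -/
theorem BadS_sub_zero {s : ℕ → ℕ → ℝ} {n : ℕ} (h0 : 0 ≤ s n 0) (N : ℝ) :
    BadS s n 0 N ⊆ Bad n (n + 1) 0 N := by
  rintro x ⟨hx, P, hPn, hk1, hk2, hP⟩
  refine ⟨hx, P, hPn, hk1, hk2, hP.trans (Real.exp_le_exp.2 ?_)⟩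
  have hH : height P = 1 := by
    simp at hk1 hk2
    omega
  rw [hH]
  simp
  exact h0

/-- for `k ≥ 1` -/
theorem BadS_sub {s : ℕ → ℕ → ℝ} {n k : ℕ} {t : ℝ} (ht0 : 0 ≤ t) (ht : t ≤ s n k) (N : ℝ) :
    BadS s n k N ⊆ Bad n (n + t / ((k + 1) * Real.log 2)) k N := by
  rintro x ⟨hx, P, hPn, hk1, hk2, hP⟩
  refine ⟨hx, P, hPn, hk1, hk2, hP.trans (Real.exp_le_exp.2 ?_)⟩
  have hl2 := log_two_pos
  have hH0 : (0 : ℝ) < height P := by
    have : 0 < 2 ^ k := by positivity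
    exact_mod_cast lt_of_lt_of_le this hk1
  have hlog : Real.log (height P) ≤ (k + 1) * Real.log 2 := by
    have h1 : (height P : ℝ) ≤ 2 ^ (k + 1) := by exact_mod_cast hk2.le
    have h2 := Real.log_le_log hH0 h1
    rw [Real.log_pow] at h2
    push_cast at h2
    exact h2
  have hpos : 0 < ((k : ℝ) + 1) * Real.log 2 := by positivity
  have h3 : t / ((k + 1) * Real.log 2) * Real.log (height P) ≤ t := by
    calc t / ((k + 1) * Real.log 2) * Real.log (height P)
        ≤ t / ((k + 1) * Real.log 2) * ((k + 1) * Real.log 2) := by gcongr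
      _ = t := by field_simp
  have h4 : (n + t / ((k + 1) * Real.log 2)) * Real.log (height P) =
      n * Real.log (height P) + t / ((k + 1) * Real.log 2) * Real.log (height P) := by ring
  rw [h4]
  linarith

/-- measure estimate -/
theorem BadS_measure {s : ℕ → ℕ → ℝ} {n : ℕ} (hn : 1 ≤ n) (h0 : 0 ≤ s n 0)
    (h1 : ∀ k, 1 ≤ k → 0 < s n k) (k : ℕ) {N : ℝ} (hN : (n : ℝ) + 1 ≤ N) :
    volume (BadS s n k N) ≤ ENNReal.ofReal
      (16 * n * (n + 1) ^ 2 * 12 ^ n * Real.exp (-3 * n - 5) * N * Real.exp 2 *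
        (Real.exp (-(s n k / (n * (n + 1)))) + 1 / ((k : ℝ) + 2) ^ 2)) := by
  have hn' : (1 : ℝ) ≤ n := by exact_mod_cast hn
  have hNpos : 0 < N := by linarith
  have hl2 := log_two_pos
  set M : ℝ := 16 * n * (n + 1) ^ 2 * 12 ^ n * Real.exp (-3 * n - 5) * N with hM
  have hM0 : 0 ≤ M := by positivity
  have hD : (0 : ℝ) < n * (n + 1) := by positivity
  have hk2 : (0 : ℝ) < (k : ℝ) + 2 := by positivity
  have hlogk : Real.log ((k : ℝ) + 2) ≤ (k : ℝ) + 1 := by
    have := Real.log_le_sub_one_of_pos hk2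
    linarith
  have hlogk0 : 0 < Real.log ((k : ℝ) + 2) := by
    apply Real.log_pos
    have : (0 : ℝ) ≤ k := Nat.cast_nonneg k
    linarith
  set t : ℝ := min (s n k) (n * (n + 1) * (2 * Real.log ((k : ℝ) + 2))) with ht
  have hts : t ≤ s n k := min_le_left _ _
  have htl : t ≤ n * (n + 1) * (2 * Real.log ((k : ℝ) + 2)) := min_le_right _ _
  have htl' : t / (n * (n + 1)) ≤ 2 * Real.log ((k : ℝ) + 2) := by
    rw [div_le_iff₀ hD]
    linarith
  -- the final comparison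
  have hfin : Real.exp (-(t / (n * (n + 1)))) ≤
      Real.exp (-(s n k / (n * (n + 1)))) + 1 / ((k : ℝ) + 2) ^ 2 := by
    rcases min_choice (s n k) (n * (n + 1) * (2 * Real.log ((k : ℝ) + 2))) with h | h
    · rw [ht, h]
      have : (0 : ℝ) ≤ 1 / ((k : ℝ) + 2) ^ 2 := by positivity
      linarith
    · rw [ht, h]
      have h3 : n * (n + 1) * (2 * Real.log ((k : ℝ) + 2)) / (n * (n + 1)) =
          2 * Real.log ((k : ℝ) + 2) := by
        field_simp
      rw [h3]
      have h4 : Real.exp (-(2 * Real.log ((k : ℝ) + 2))) = 1 / ((k : ℝ) + 2) ^ 2 := by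
        rw [Real.exp_neg, show (2 : ℝ) * Real.log ((k : ℝ) + 2) =
          Real.log ((k : ℝ) + 2) + Real.log ((k : ℝ) + 2) by ring, Real.exp_add,
          Real.exp_log hk2]
        field_simp
      rw [h4]
      have := (Real.exp_pos (-(s n k / (n * (n + 1))))).le
      linarith
  rcases Nat.eq_zero_or_pos k with hk | hk
  · -- k = 0
    have hk0 : (k : ℝ) = 0 := by rw [hk]; simp
    have h5 := Bad_measure hn one_pos k hN
    have hsub : BadS s n k N ⊆ Bad n (n + 1) k N := by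
      rw [hk]
      exact BadS_sub_zero h0 N
    refine (measure_mono hsub).trans (h5.trans ?_)
    apply ENNReal.ofReal_le_ofReal
    have h9 : Real.exp (-(1 * Real.log 2 / ((n : ℝ) * (n + 1)))) ^ k = 1 := by rw [hk, pow_zero]
    rw [h9, mul_one]
    have h8 : t / (n * (n + 1)) ≤ 2 := by
      rw [hk0, zero_add] at hlogk htl'
      linarith
    have h6 : 1 ≤ Real.exp 2 * Real.exp (-(t / (n * (n + 1)))) := by
      rw [← Real.exp_add]
      apply Real.one_le_exp
      linarith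
    calc M = M * 1 := (mul_one _).symm
      _ ≤ M * (Real.exp 2 * Real.exp (-(t / (n * (n + 1))))) := by gcongr
      _ ≤ M * (Real.exp 2 * (Real.exp (-(s n k / (n * (n + 1)))) + 1 / ((k : ℝ) + 2) ^ 2)) := by
          gcongr
      _ = _ := by ring
  · -- k ≥ 1
    have hkr : (1 : ℝ) ≤ k := by exact_mod_cast hk
    have ht0 : 0 < t := lt_min (h1 k hk) (by positivity)
    set σ : ℝ := t / ((k + 1) * Real.log 2) with hσ
    have hσ0 : 0 < σ := by positivity
    have h5 := Bad_measure hn hσ0 k hN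
    refine (measure_mono (BadS_sub ht0.le hts N)).trans (h5.trans ?_)
    apply ENNReal.ofReal_le_ofReal
    have h6 : Real.exp (-(σ * Real.log 2 / (n * (n + 1)))) ^ k ≤
        Real.exp 2 * Real.exp (-(t / (n * (n + 1)))) := by
      rw [← Real.exp_nat_mul, ← Real.exp_add]
      apply Real.exp_le_exp.2
      have h7 : (k : ℝ) * -(σ * Real.log 2 / (n * (n + 1))) =
          -(t / (n * (n + 1))) + (t / (n * (n + 1))) / (k + 1) := by
        rw [hσ]
        field_simp
        ring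
      rw [h7]
      have h8 : (t / (n * (n + 1))) / (k + 1) ≤ 2 := by
        rw [div_le_iff₀ (by positivity)]
        linarith
      linarith
    calc M * Real.exp (-(σ * Real.log 2 / (n * (n + 1)))) ^ k
        ≤ M * (Real.exp 2 * Real.exp (-(t / (n * (n + 1))))) := by gcongr
      _ ≤ M * (Real.exp 2 * (Real.exp (-(s n k / (n * (n + 1)))) + 1 / ((k : ℝ) + 2) ^ 2)) := by
          gcongr
      _ = _ := by ring

theorem summable_sq : Summable fun k : ℕ => 1 / ((k : ℝ) + 2) ^ 2 := by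
  have h1 : Summable fun k : ℕ => 1 / (k : ℝ) ^ 2 :=
    Real.summable_one_div_nat_pow.2 (by norm_num)
  have h2 := (summable_nat_add_iff (f := fun k : ℕ => 1 / (k : ℝ) ^ 2) 2).2 h1
  refine h2.congr fun k => ?_
  push_cast
  rfl

/-- `ρ = 12 e⁻³ < 3/5` -/
theorem rho_lt : 12 * Real.exp (-3) < 3 / 5 := by
  have h2 : (2.7182818283 : ℝ) < Real.exp 1 := Real.exp_one_gt_d9
  have h3 : Real.exp 3 = Real.exp 1 ^ 3 := by
    rw [← Real.exp_nat_mul]; norm_num
  have h4 : (2.7182818283 : ℝ) ^ 3 < Real.exp 1 ^ 3 := by gcongr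
  have h5 : (20 : ℝ) < Real.exp 3 := by
    rw [h3]
    norm_num at h4 ⊢
    linarith
  rw [Real.exp_neg, ← div_eq_mul_inv, div_lt_iff₀ (Real.exp_pos 3)]
  linarith

/-- boundedness of a power times a geometric sequence -/
theorem bdd_pow_geom (d : ℕ) {q : ℝ} (hq0 : 0 ≤ q) (hq1 : q < 1) :
    ∃ T : ℝ, 0 ≤ T ∧ ∀ m : ℕ, (m : ℝ) ^ d * q ^ m ≤ T := by
  have h1 : Summable fun m : ℕ => ((m : ℝ) ^ d * q ^ m : ℝ) :=
    summable_pow_mul_geometric_of_norm_lt_one d (by
      rw [Real.norm_eq_abs, abs_of_nonneg hq0]; exact hq1)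
  exact ⟨∑' m : ℕ, (m : ℝ) ^ d * q ^ m, tsum_nonneg fun m => by positivity,
    fun m => h1.le_tsum m fun j _ => by positivity⟩

/-- the constants in `BadS_measure` with `N = n + 1` -/
theorem const_bound : ∃ A : ℝ, 0 ≤ A ∧ ∀ m : ℕ,
    16 * ((m + 1 : ℕ) : ℝ) * (((m + 1 : ℕ) : ℝ) + 1) ^ 2 * 12 ^ (m + 1) *
      Real.exp (-3 * ((m + 1 : ℕ) : ℝ) - 5) * (((m + 1 : ℕ) : ℝ) + 1) * Real.exp 2 ≤
        A * (3 / 5 : ℝ) ^ m := by
  set ρ : ℝ := 12 * Real.exp (-3) with hρ
  have hρ0 : 0 < ρ := by positivity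
  have hρ1 := rho_lt
  set q : ℝ := ρ / (3 / 5) with hq
  have hq0 : 0 ≤ q := by positivity
  have hq1 : q < 1 := by
    rw [hq, div_lt_one (by norm_num)]
    exact hρ1
  obtain ⟨T, hT0, hT⟩ := bdd_pow_geom 4 hq0 hq1
  refine ⟨16 * Real.exp 2 * T * (1 / q) * (3 / 5), by positivity, fun m => ?_⟩
  have hqpos : 0 < q := by positivity
  have h1 := hT (m + 2)
  set n : ℕ := m + 1 with hn
  have h4 : 12 ^ n * Real.exp (-3 * (n : ℝ) - 5) ≤ ρ ^ n := by
    rw [hρ, mul_pow, ← Real.exp_nat_mul]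
    have : Real.exp (-3 * (n : ℝ) - 5) ≤ Real.exp (n * -3) := Real.exp_le_exp.2 (by linarith)
    gcongr
  have h5 : (((m + 2 : ℕ) : ℝ)) = n + 1 := by rw [hn]; push_cast; ring
  have h6 : ρ ^ n = (3 / 5) ^ n * q ^ n := by
    rw [← mul_pow, hq]
    congr 1
    field_simp
  have h7 : ((n : ℝ) + 1) ^ 4 * q ^ n ≤ T * (1 / q) := by
    rw [h5] at h1
    have h8 : q ^ (m + 2) = q ^ n * q := by rw [hn]; ring
    rw [h8] at h1
    rw [mul_one_div, le_div_iff₀ hqpos]
    linarith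
  calc 16 * (n : ℝ) * ((n : ℝ) + 1) ^ 2 * 12 ^ n * Real.exp (-3 * (n : ℝ) - 5) * ((n : ℝ) + 1) *
        Real.exp 2
      = 16 * Real.exp 2 * ((n : ℝ) * ((n : ℝ) + 1) ^ 3) *
          (12 ^ n * Real.exp (-3 * (n : ℝ) - 5)) := by ring
    _ ≤ 16 * Real.exp 2 * (((n : ℝ) + 1) * ((n : ℝ) + 1) ^ 3) * ρ ^ n := by
        have : (n : ℝ) ≤ n + 1 := by linarith
        gcongr
    _ = 16 * Real.exp 2 * (((n : ℝ) + 1) ^ 4 * q ^ n) * (3 / 5) ^ n := by
        rw [h6]; ring
    _ ≤ 16 * Real.exp 2 * (T * (1 / q)) * (3 / 5) ^ n := by gcongr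
    _ = 16 * Real.exp 2 * T * (1 / q) * (3 / 5) * (3 / 5) ^ m := by rw [hn]; ring


/-- almost everywhere statement, fixed degree -/
theorem ae_fixedS {s : ℕ → ℕ → ℝ} {n : ℕ} (hn : 1 ≤ n) (h0 : 0 ≤ s n 0)
    (h1 : ∀ k, 1 ≤ k → 0 < s n k)
    (hs : Summable fun k : ℕ => Real.exp (-(s n k / (n * (n + 1)))))
    {N : ℝ} (hN : (n : ℝ) + 1 ≤ N) : ∀ᵐ x : ℝ, {k : ℕ | x ∈ BadS s n k N}.Finite := by
  refine ae_finite_setOfPred_mem ?_
  have hsum := (hs.add summable_sq).mul_left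
    (16 * (n : ℝ) * (n + 1) ^ 2 * 12 ^ n * Real.exp (-3 * n - 5) * N * Real.exp 2)
  refine ne_top_of_le_ne_top (hsum.tsum_ofReal_ne_top) ?_
  exact ENNReal.tsum_le_tsum fun k => BadS_measure hn h0 h1 k hN

/-- almost everywhere statement, all degrees -/
theorem ae_totalS {s : ℕ → ℕ → ℝ} (h0 : ∀ n, 1 ≤ n → 0 ≤ s n 0)
    (h1 : ∀ n k, 1 ≤ n → 1 ≤ k → 0 < s n k)
    (hs : Summable fun p : ℕ × ℕ => (3 / 5 : ℝ) ^ p.1 *
      Real.exp (-(s (p.1 + 1) p.2 / ((p.1 + 1) * (p.1 + 2))))) :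
    ∀ᵐ x : ℝ, {p : ℕ × ℕ | x ∈ BadS s (p.1 + 1) p.2 ((p.1 + 1 : ℕ) + 1)}.Finite := by
  refine ae_finite_setOfPred_mem ?_
  obtain ⟨A, hA0, hA⟩ := const_bound
  have hg : Summable fun p : ℕ × ℕ => (3 / 5 : ℝ) ^ p.1 * (1 / ((p.2 : ℝ) + 2) ^ 2) :=
    (summable_geometric_of_lt_one (by norm_num) (by norm_num : (3 / 5 : ℝ) < 1)).mul_of_nonneg
      summable_sq (fun m => by positivity) (fun k => by positivity)
  have hsum := (hs.add hg).mul_left A
  refine ne_top_of_le_ne_top (hsum.tsum_ofReal_ne_top) ?_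
  refine ENNReal.tsum_le_tsum fun p => ?_
  obtain ⟨m, k⟩ := p
  refine (BadS_measure (n := m + 1) (by omega) (h0 _ (by omega))
    (fun k hk => h1 _ k (by omega) hk) k le_rfl).trans ?_
  apply ENNReal.ofReal_le_ofReal
  have h2 := hA m
  have h3 : (((m + 1 : ℕ) : ℝ) + 1) = (m : ℝ) + 2 := by push_cast; ring
  have h4 : (0 : ℝ) ≤ Real.exp (-(s (m + 1) k / (((m + 1 : ℕ) : ℝ) * (((m + 1 : ℕ) : ℝ) + 1)))) +
      1 / ((k : ℝ) + 2) ^ 2 := by positivity
  refine (mul_le_mul_of_nonneg_right h2 h4).trans (le_of_eq ?_)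
  rw [h3]
  push_cast
  ring

/-- the general theorem -/
theorem general {s : ℕ → ℕ → ℝ} (h0 : ∀ n, 1 ≤ n → 0 ≤ s n 0)
    (h1 : ∀ n k, 1 ≤ n → 1 ≤ k → 0 < s n k)
    (hs : Summable fun p : ℕ × ℕ => (3 / 5 : ℝ) ^ p.1 *
      Real.exp (-(s (p.1 + 1) p.2 / ((p.1 + 1) * (p.1 + 2))))) :
    ∀ᵐ ξ : ℝ, ∃ C : ℝ, ∀ P : ℤ[X], 1 ≤ P.natDegree →
      C ≤ max (P.natDegree : ℝ) (height P : ℝ) →
      Real.exp (-(P.natDegree * Real.log (height P)) - s P.natDegree (Nat.log 2 (height P)) -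
        3 * ((P.natDegree : ℝ) + 1) ^ 3) < |aeval ξ P| := by
  have ha := ae_totalS h0 h1 hs
  have hfib : ∀ m : ℕ, Summable fun k : ℕ =>
      Real.exp (-(s (m + 1) k / (((m + 1 : ℕ) : ℝ) * (((m + 1 : ℕ) : ℝ) + 1)))) := by
    intro m
    have h2 := (hs.prod_factor m).mul_left ((3 / 5 : ℝ) ^ m)⁻¹
    refine h2.congr fun k => ?_
    have h3 : (((m + 1 : ℕ) : ℝ) + 1) = (m : ℝ) + 2 := by push_cast; ring
    have h4 : ((3 / 5 : ℝ) ^ m) ≠ 0 := by positivity
    rw [h3]
    push_cast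
    field_simp
  have hb : ∀ᵐ x : ℝ, ∀ n N : ℕ, {k : ℕ | x ∈ BadS s (n + 1) k
      (((n + 1 : ℕ) + 1 : ℝ) + N)}.Finite := by
    rw [ae_all_iff]
    intro n
    rw [ae_all_iff]
    intro N
    refine ae_fixedS (by omega) (h0 _ (by omega)) (fun k hk => h1 _ k (by omega) hk) (hfib n) ?_
    have : (0 : ℝ) ≤ N := Nat.cast_nonneg N
    linarith
  filter_upwards [ha, hb] with ξ hξ1 hξ2
  -- threshold for large degrees
  have hn0 : ∃ n0 : ℕ, ∀ n ≥ n0, ∀ k, 1 ≤ n → ξ ∉ BadS s n k ((n : ℝ) + 1) := by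
    obtain ⟨b, hb⟩ := (hξ1.image Prod.fst).bddAbove
    refine ⟨b + 2, ?_⟩
    intro n hn k hn1 hmem
    obtain ⟨m, rfl⟩ : ∃ m, n = m + 1 := ⟨n - 1, by omega⟩
    have : m ≤ b := hb ⟨(m, k), hmem, rfl⟩
    omega
  obtain ⟨n0, hn0⟩ := hn0
  obtain ⟨N1, hN1⟩ := exists_nat_gt |ξ|
  set n1 : ℕ := max n0 (max N1 1) with hn1
  -- thresholds for small degrees
  have hk : ∀ n : ℕ, ∃ kn : ℕ, ∀ k ≥ kn,
      ξ ∉ BadS s (n + 1) k (((n + 1 : ℕ) + 1 : ℝ) + N1) := by
    intro n
    obtain ⟨b, hb⟩ := (hξ2 n N1).bddAbove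
    refine ⟨b + 1, fun k hk hmem => ?_⟩
    have : k ≤ b := hb hmem
    omega
  choose kn hkn using hk
  set κ : ℕ := (Finset.range n1).sup kn with hκ
  refine ⟨max (n1 : ℝ) ((2 : ℝ) ^ κ), ?_⟩
  intro P hP1 hPC
  set n := P.natDegree with hn
  have hP0 : P ≠ 0 := by
    intro h
    rw [h, natDegree_zero] at hn
    omega
  have hH1 := one_le_height hP0
  set H := height P with hH
  set k := Nat.log 2 H with hkdef
  have hk1 : 2 ^ k ≤ H := Nat.pow_log_le_self 2 (by omega)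
  have hk2 : H < 2 ^ (k + 1) := Nat.lt_pow_succ_log_self (by norm_num) H
  by_cases hcase : n1 ≤ n
  · have hnn0 : n0 ≤ n := le_trans (le_max_left _ _) hcase
    have hnN1 : N1 ≤ n := le_trans (le_trans (le_max_left _ _) (le_max_right _ _)) hcase
    have h3 := hn0 n hnn0 k hP1
    have hball : ξ ∈ ball (0 : ℝ) ((n : ℝ) + 1) := by
      rw [mem_ball, Real.dist_eq, sub_zero]
      have : (N1 : ℝ) ≤ n := by exact_mod_cast hnN1
      linarith
    by_contra hcon
    push Not at hcon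
    exact h3 ⟨hball, P, hn.symm, hk1, hk2, hcon⟩
  · push Not at hcase
    obtain ⟨m, hm⟩ : ∃ m, n = m + 1 := ⟨n - 1, by omega⟩
    have hHC : (2 : ℝ) ^ κ ≤ H := by
      have h3 : (n1 : ℝ) ≤ max (n : ℝ) (H : ℝ) := le_trans (le_max_left _ _) hPC
      have h4 : (2 : ℝ) ^ κ ≤ max (n : ℝ) (H : ℝ) := le_trans (le_max_right _ _) hPC
      have h5 : (n : ℝ) < n1 := by exact_mod_cast hcase
      rcases max_cases (n : ℝ) (H : ℝ) with ⟨h6, _⟩ | ⟨h6, _⟩
      · rw [h6] at h3
        linarith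
      · rwa [h6] at h4
    have hHC' : 2 ^ κ ≤ H := by exact_mod_cast hHC
    have hkκ : κ ≤ k := Nat.le_log_of_pow_le (by norm_num) hHC'
    have hkm : kn m ≤ k := le_trans (Finset.le_sup (f := kn) (Finset.mem_range.2 (by omega))) hkκ
    have h3 := hkn m k hkm
    have hball : ξ ∈ ball (0 : ℝ) (((m + 1 : ℕ) + 1 : ℝ) + N1) := by
      rw [mem_ball, Real.dist_eq, sub_zero]
      have : (0 : ℝ) ≤ ((m + 1 : ℕ) : ℝ) := Nat.cast_nonneg _
      linarith
    by_contra hcon
    push Not at hcon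
    apply h3
    refine ⟨hball, P, by omega, hk1, hk2, ?_⟩
    rw [← hm]
    exact hcon

/-- part (a): the error term `(1 + ε) n (n + 1) log (2 + log H)` -/
theorem loglog {ε : ℝ} (hε : 0 < ε) : ∀ᵐ ξ : ℝ, ∃ C : ℝ, ∀ P : ℤ[X], 1 ≤ P.natDegree →
      C ≤ max (P.natDegree : ℝ) (height P : ℝ) →
      Real.exp (-(P.natDegree * Real.log (height P)) -
        (1 + ε) * (P.natDegree * (P.natDegree + 1)) * Real.log (2 + Real.log (height P)) -
        3 * ((P.natDegree : ℝ) + 1) ^ 3) < |aeval ξ P| := by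
  have hl2 := log_two_pos
  have hlpos : ∀ k : ℕ, 0 < Real.log (2 + k * Real.log 2) := by
    intro k
    apply Real.log_pos
    have : (0 : ℝ) ≤ k * Real.log 2 := by positivity
    linarith
  have hmain := general (s := fun n k =>
    (1 + ε) * (n * (n + 1)) * Real.log (2 + k * Real.log 2)) ?_ ?_ ?_
  · filter_upwards [hmain] with ξ hξ
    obtain ⟨C, hC⟩ := hξ
    refine ⟨C, fun P hP1 hPC => ?_⟩
    refine lt_of_le_of_lt (Real.exp_le_exp.2 ?_) (hC P hP1 hPC)
    have hP0 : P ≠ 0 := by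
      intro h
      rw [h, natDegree_zero] at hP1
      omega
    have hH1 := one_le_height hP0
    have hk1 : 2 ^ (Nat.log 2 (height P)) ≤ height P := Nat.pow_log_le_self 2 (by omega)
    have h2 : (Nat.log 2 (height P) : ℝ) * Real.log 2 ≤ Real.log (height P) := by
      rw [← Real.log_pow]
      apply Real.log_le_log (by positivity)
      exact_mod_cast hk1
    have h3 : Real.log (2 + (Nat.log 2 (height P) : ℝ) * Real.log 2) ≤
        Real.log (2 + Real.log (height P)) := by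
      apply Real.log_le_log
      · positivity
      · linarith
    have h4 : (1 + ε) * ((P.natDegree : ℝ) * (P.natDegree + 1)) *
        Real.log (2 + (Nat.log 2 (height P) : ℝ) * Real.log 2) ≤
        (1 + ε) * ((P.natDegree : ℝ) * (P.natDegree + 1)) * Real.log (2 + Real.log (height P)) := by
      gcongr
    linarith
  · intro n hn
    have := (hlpos 0).le
    positivity
  · intro n k hn hk
    have := hlpos k
    have hn' : (0 : ℝ) < n := by exact_mod_cast hn
    positivity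
  · have hfin : Summable fun k : ℕ => (2 : ℝ) ^ (1 + ε) * ((k + 1 : ℕ) : ℝ) ^ (-(1 + ε)) := by
      apply Summable.mul_left
      exact (summable_nat_add_iff (f := fun k : ℕ => (k : ℝ) ^ (-(1 + ε))) 1).2
        (Real.summable_nat_rpow.2 (by linarith))
    have hg := (summable_geometric_of_lt_one (by norm_num)
      (by norm_num : (3 / 5 : ℝ) < 1)).mul_of_nonneg hfin (fun m => by positivity)
        (fun k => by positivity)
    refine Summable.of_nonneg_of_le (fun p => by positivity) (fun p => ?_) hg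
    obtain ⟨m, k⟩ := p
    simp only
    gcongr
    have h5 : (1 + ε) * (((m + 1 : ℕ) : ℝ) * (((m + 1 : ℕ) : ℝ) + 1)) *
        Real.log (2 + k * Real.log 2) / (((m : ℝ) + 1) * ((m : ℝ) + 2)) =
        (1 + ε) * Real.log (2 + k * Real.log 2) := by
      push_cast
      field_simp
      ring
    rw [h5]
    have hk0 : (0 : ℝ) ≤ k := Nat.cast_nonneg k
    have h6 : ((k + 1 : ℕ) : ℝ) / 2 ≤ 2 + k * Real.log 2 := by
      have := log_two_ge
      push_cast
      nlinarith
    have h7 : Real.log (((k + 1 : ℕ) : ℝ) / 2) ≤ Real.log (2 + k * Real.log 2) :=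
      Real.log_le_log (by positivity) h6
    calc Real.exp (-((1 + ε) * Real.log (2 + k * Real.log 2)))
        ≤ Real.exp (-((1 + ε) * Real.log (((k + 1 : ℕ) : ℝ) / 2))) := by
          apply Real.exp_le_exp.2
          have : (1 + ε) * Real.log (((k + 1 : ℕ) : ℝ) / 2) ≤
            (1 + ε) * Real.log (2 + k * Real.log 2) := by gcongr
          linarith
      _ = (2 : ℝ) ^ (1 + ε) * ((k + 1 : ℕ) : ℝ) ^ (-(1 + ε)) := by
          have hkp : (0 : ℝ) < ((k + 1 : ℕ) : ℝ) := by positivity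
          rw [Real.log_div hkp.ne' (by norm_num), Real.rpow_def_of_pos (by norm_num : (0 : ℝ) < 2),
            Real.rpow_def_of_pos hkp, ← Real.exp_add]
          congr 1
          ring

/-- part (b): summable exponents -/
theorem exponents {σ : ℕ → ℝ} (hσ : ∀ n, 1 ≤ n → 0 < σ n)
    (hsum : Summable fun n : ℕ => (2 / 3 : ℝ) ^ n / σ n) : ∀ᵐ ξ : ℝ, ∃ C : ℝ, ∀ P : ℤ[X],
      1 ≤ P.natDegree → C ≤ max (P.natDegree : ℝ) (height P : ℝ) →
      Real.exp (-((P.natDegree + σ P.natDegree) * Real.log (height P)) -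
        3 * ((P.natDegree : ℝ) + 1) ^ 3) < |aeval ξ P| := by
  have hl2 := log_two_pos
  have hmain := general (s := fun n k => σ n * (k * Real.log 2)) ?_ ?_ ?_
  · filter_upwards [hmain] with ξ hξ
    obtain ⟨C, hC⟩ := hξ
    refine ⟨C, fun P hP1 hPC => ?_⟩
    refine lt_of_le_of_lt (Real.exp_le_exp.2 ?_) (hC P hP1 hPC)
    have hP0 : P ≠ 0 := by
      intro h
      rw [h, natDegree_zero] at hP1
      omega
    have hH1 := one_le_height hP0
    have hk1 : 2 ^ (Nat.log 2 (height P)) ≤ height P := Nat.pow_log_le_self 2 (by omega)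
    have h2 : (Nat.log 2 (height P) : ℝ) * Real.log 2 ≤ Real.log (height P) := by
      rw [← Real.log_pow]
      apply Real.log_le_log (by positivity)
      exact_mod_cast hk1
    have h3 := mul_le_mul_of_nonneg_left h2 (hσ _ hP1).le
    have h4 : ((P.natDegree : ℝ) + σ P.natDegree) * Real.log (height P) =
        P.natDegree * Real.log (height P) + σ P.natDegree * Real.log (height P) := by ring
    rw [h4]
    linarith
  · intro n hn
    simp
  · intro n k hn hk
    have := hσ n hn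
    have hk' : (0 : ℝ) < k := by exact_mod_cast hk
    positivity
  · obtain ⟨T, hT0, hT⟩ := bdd_pow_geom 2 (by norm_num : (0 : ℝ) ≤ 9 / 10)
      (by norm_num : (9 / 10 : ℝ) < 1)
    -- the tail parameter
    have hτ : ∀ m : ℕ, 0 < σ (m + 1) * Real.log 2 / (((m : ℝ) + 1) * ((m : ℝ) + 2)) := by
      intro m
      have := hσ (m + 1) (by omega)
      positivity
    have hterm : ∀ m k : ℕ, Real.exp (-(σ (m + 1) * (k * Real.log 2) /
        (((m : ℝ) + 1) * ((m : ℝ) + 2)))) =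
        Real.exp (-(σ (m + 1) * Real.log 2 / (((m : ℝ) + 1) * ((m : ℝ) + 2)))) ^ k := by
      intro m k
      rw [← Real.exp_nat_mul]
      congr 1
      ring
    have hlt : ∀ m : ℕ, Real.exp (-(σ (m + 1) * Real.log 2 / (((m : ℝ) + 1) * ((m : ℝ) + 2)))) < 1 := by
      intro m
      rw [Real.exp_lt_one_iff]
      have := hτ m
      linarith
    rw [summable_prod_of_nonneg (fun p => by positivity)]
    refine ⟨fun m => ?_, ?_⟩
    · simp only
      apply Summable.mul_left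
      refine (summable_geometric_of_lt_one (Real.exp_pos _).le (hlt m)).congr fun k => ?_
      exact (hterm m k).symm
    · have hgeo : ∀ m : ℕ, ∑' k : ℕ, (3 / 5 : ℝ) ^ m * Real.exp (-(σ (m + 1) * (k * Real.log 2) /
          (((m : ℝ) + 1) * ((m : ℝ) + 2)))) ≤
          (3 / 5 : ℝ) ^ m + 4 * T * ((2 / 3 : ℝ) ^ (m + 1) / σ (m + 1)) := by
        intro m
        set τ : ℝ := σ (m + 1) * Real.log 2 / (((m : ℝ) + 1) * ((m : ℝ) + 2)) with hτdef
        have hτm : 0 < τ := hτ m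
        have hσm : 0 < σ (m + 1) := hσ (m + 1) (by omega)
        have e1 : ∑' k : ℕ, (3 / 5 : ℝ) ^ m * Real.exp (-(σ (m + 1) * (k * Real.log 2) /
            (((m : ℝ) + 1) * ((m : ℝ) + 2)))) = (3 / 5 : ℝ) ^ m * (1 - Real.exp (-τ))⁻¹ := by
          rw [tsum_mul_left]
          congr 1
          rw [← tsum_geometric_of_lt_one (Real.exp_pos _).le (hlt m)]
          exact tsum_congr fun k => hterm m k
        rw [e1]
        have e2 : (1 - Real.exp (-τ))⁻¹ ≤ 1 + 1 / τ := by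
          have h1 : Real.exp (-τ) ≤ 1 / (1 + τ) := by
            rw [Real.exp_neg, ← one_div]
            apply one_div_le_one_div_of_le (by linarith)
            have := Real.add_one_le_exp τ
            linarith
          have h2 : τ / (1 + τ) ≤ 1 - Real.exp (-τ) := by
            have : τ / (1 + τ) = 1 - 1 / (1 + τ) := by field_simp; ring
            linarith
          calc (1 - Real.exp (-τ))⁻¹ ≤ (τ / (1 + τ))⁻¹ := inv_anti₀ (by positivity) h2
            _ = 1 + 1 / τ := by field_simp; ring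
        have e3 : (3 / 5 : ℝ) ^ m * (1 / τ) ≤ 4 * T * ((2 / 3 : ℝ) ^ (m + 1) / σ (m + 1)) := by
          have h3 : 1 / τ = (((m : ℝ) + 1) * ((m : ℝ) + 2)) / (σ (m + 1) * Real.log 2) := by
            rw [hτdef]
            field_simp
          have h4 := hT (m + 2)
          have h5 : ((m : ℝ) + 1) * ((m : ℝ) + 2) ≤ ((m + 2 : ℕ) : ℝ) ^ 2 := by
            push_cast
            nlinarith [Nat.cast_nonneg (α := ℝ) m]
          have h6 : (3 / 5 : ℝ) ^ m = (9 / 10) ^ m * (2 / 3) ^ m := by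
            rw [← mul_pow]
            norm_num
          have h7 : (((m : ℝ) + 1) * ((m : ℝ) + 2)) * (9 / 10 : ℝ) ^ m ≤ (100 / 81) * T := by
            have h8 : ((m + 2 : ℕ) : ℝ) ^ 2 * (9 / 10 : ℝ) ^ (m + 2) =
              (81 / 100) * (((m + 2 : ℕ) : ℝ) ^ 2 * (9 / 10 : ℝ) ^ m) := by ring
            rw [h8] at h4
            have h9 : (((m : ℝ) + 1) * ((m : ℝ) + 2)) * (9 / 10 : ℝ) ^ m ≤
              ((m + 2 : ℕ) : ℝ) ^ 2 * (9 / 10 : ℝ) ^ m := by gcongr
            linarith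
          rw [h3, h6]
          have hl := log_two_ge
          have e4 : (9 / 10 : ℝ) ^ m * (2 / 3) ^ m *
              ((((m : ℝ) + 1) * ((m : ℝ) + 2)) / (σ (m + 1) * Real.log 2)) =
              ((((m : ℝ) + 1) * ((m : ℝ) + 2)) * (9 / 10 : ℝ) ^ m) *
                ((2 / 3) ^ m / σ (m + 1)) * (1 / Real.log 2) := by
            field_simp
          rw [e4]
          have e5 : 1 / Real.log 2 ≤ 2 := by
            rw [div_le_iff₀ hl2]
            linarith
          calc ((((m : ℝ) + 1) * ((m : ℝ) + 2)) * (9 / 10 : ℝ) ^ m) *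
                ((2 / 3) ^ m / σ (m + 1)) * (1 / Real.log 2)
              ≤ ((100 / 81) * T) * ((2 / 3) ^ m / σ (m + 1)) * 2 := by gcongr
            _ ≤ 4 * T * ((2 / 3 : ℝ) ^ (m + 1) / σ (m + 1)) := by
                have h10 : (2 / 3 : ℝ) ^ (m + 1) / σ (m + 1) =
                  (2 / 3) * ((2 / 3) ^ m / σ (m + 1)) := by ring
                rw [h10]
                have h11 : 0 ≤ T * ((2 / 3 : ℝ) ^ m / σ (m + 1)) := by positivity
                nlinarith
        calc (3 / 5 : ℝ) ^ m * (1 - Real.exp (-τ))⁻¹ ≤ (3 / 5 : ℝ) ^ m * (1 + 1 / τ) := by gcongr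
          _ = (3 / 5 : ℝ) ^ m + (3 / 5 : ℝ) ^ m * (1 / τ) := by ring
          _ ≤ _ := by gcongr
      have hS : Summable fun m : ℕ =>
          (3 / 5 : ℝ) ^ m + 4 * T * ((2 / 3 : ℝ) ^ (m + 1) / σ (m + 1)) := by
        have h1 := (summable_nat_add_iff (f := fun n : ℕ => (2 / 3 : ℝ) ^ n / σ n) 1).2 hsum
        exact (summable_geometric_of_lt_one (by norm_num)
          (by norm_num : (3 / 5 : ℝ) < 1)).add (h1.mul_left (4 * T))
      exact Summable.of_nonneg_of_le (fun m => tsum_nonneg fun k => by positivity) hgeo hS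

/-- part (c): arbitrary positive exponents, with an explicit cost -/
theorem arbitrary {σ : ℕ → ℝ} (hσ : ∀ n, 1 ≤ n → 0 < σ n) : ∀ᵐ ξ : ℝ, ∃ C : ℝ, ∀ P : ℤ[X],
      1 ≤ P.natDegree → C ≤ max (P.natDegree : ℝ) (height P : ℝ) →
      Real.exp (-((P.natDegree + σ P.natDegree) * Real.log (height P)) -
        P.natDegree * (P.natDegree + 1) * Real.log (1 + 1 / σ P.natDegree) -
        3 * ((P.natDegree : ℝ) + 1) ^ 3) < |aeval ξ P| := by
  have hl2 := log_two_pos
  have hlog0 : ∀ n, 1 ≤ n → 0 < Real.log (1 + 1 / σ n) := by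
    intro n hn
    apply Real.log_pos
    have := hσ n hn
    have : 0 < 1 / σ n := by positivity
    linarith
  have hmain := general (s := fun n k => σ n * (k * Real.log 2) +
    n * (n + 1) * Real.log (1 + 1 / σ n)) ?_ ?_ ?_
  · filter_upwards [hmain] with ξ hξ
    obtain ⟨C, hC⟩ := hξ
    refine ⟨C, fun P hP1 hPC => ?_⟩
    refine lt_of_le_of_lt (Real.exp_le_exp.2 ?_) (hC P hP1 hPC)
    have hP0 : P ≠ 0 := by
      intro h
      rw [h, natDegree_zero] at hP1
      omega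
    have hH1 := one_le_height hP0
    have hk1 : 2 ^ (Nat.log 2 (height P)) ≤ height P := Nat.pow_log_le_self 2 (by omega)
    have h2 : (Nat.log 2 (height P) : ℝ) * Real.log 2 ≤ Real.log (height P) := by
      rw [← Real.log_pow]
      apply Real.log_le_log (by positivity)
      exact_mod_cast hk1
    have h3 := mul_le_mul_of_nonneg_left h2 (hσ _ hP1).le
    have h4 : ((P.natDegree : ℝ) + σ P.natDegree) * Real.log (height P) =
        P.natDegree * Real.log (height P) + σ P.natDegree * Real.log (height P) := by ring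
    rw [h4]
    linarith
  · intro n hn
    have := hlog0 n hn
    simp only [Nat.cast_zero, zero_mul, mul_zero, zero_add]
    positivity
  · intro n k hn hk
    have h1 := hσ n hn
    have h2 := hlog0 n hn
    have hk' : (0 : ℝ) < k := by exact_mod_cast hk
    positivity
  · have hτ : ∀ m : ℕ, 0 < σ (m + 1) * Real.log 2 / (((m : ℝ) + 1) * ((m : ℝ) + 2)) := by
      intro m
      have := hσ (m + 1) (by omega)
      positivity
    have hterm : ∀ m k : ℕ, Real.exp (-((σ (m + 1) * (k * Real.log 2) +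
        ((m + 1 : ℕ) : ℝ) * (((m + 1 : ℕ) : ℝ) + 1) * Real.log (1 + 1 / σ (m + 1))) /
        (((m : ℝ) + 1) * ((m : ℝ) + 2)))) = (1 + 1 / σ (m + 1))⁻¹ *
        Real.exp (-(σ (m + 1) * Real.log 2 / (((m : ℝ) + 1) * ((m : ℝ) + 2)))) ^ k := by
      intro m k
      have h1 := hσ (m + 1) (by omega)
      have h2 : 0 < 1 + 1 / σ (m + 1) := by positivity
      rw [← Real.exp_nat_mul]
      conv_rhs => rw [← Real.exp_log h2, ← Real.exp_neg, ← Real.exp_add]
      congr 1
      push_cast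
      field_simp
      ring
    have hlt : ∀ m : ℕ,
        Real.exp (-(σ (m + 1) * Real.log 2 / (((m : ℝ) + 1) * ((m : ℝ) + 2)))) < 1 := by
      intro m
      rw [Real.exp_lt_one_iff]
      have := hτ m
      linarith
    rw [summable_prod_of_nonneg (fun p => by positivity)]
    refine ⟨fun m => ?_, ?_⟩
    · simp only
      apply Summable.mul_left
      refine ((summable_geometric_of_lt_one (Real.exp_pos _).le (hlt m)).mul_left
        (1 + 1 / σ (m + 1))⁻¹).congr fun k => ?_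
      exact (hterm m k).symm
    · have hgeo : ∀ m : ℕ, ∑' k : ℕ, (3 / 5 : ℝ) ^ m * Real.exp (-((σ (m + 1) * (k * Real.log 2) +
          ((m + 1 : ℕ) : ℝ) * (((m + 1 : ℕ) : ℝ) + 1) * Real.log (1 + 1 / σ (m + 1))) /
          (((m : ℝ) + 1) * ((m : ℝ) + 2)))) ≤ 2 * (((m + 2 : ℕ) : ℝ) ^ 2 * (3 / 5 : ℝ) ^ m) := by
        intro m
        set τ : ℝ := σ (m + 1) * Real.log 2 / (((m : ℝ) + 1) * ((m : ℝ) + 2)) with hτdef
        have hτm : 0 < τ := hτ m
        have hσm : 0 < σ (m + 1) := hσ (m + 1) (by omega)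
        have e1 : ∑' k : ℕ, (3 / 5 : ℝ) ^ m * Real.exp (-((σ (m + 1) * (k * Real.log 2) +
            ((m + 1 : ℕ) : ℝ) * (((m + 1 : ℕ) : ℝ) + 1) * Real.log (1 + 1 / σ (m + 1))) /
            (((m : ℝ) + 1) * ((m : ℝ) + 2)))) =
            (3 / 5 : ℝ) ^ m * ((1 + 1 / σ (m + 1))⁻¹ * (1 - Real.exp (-τ))⁻¹) := by
          rw [tsum_mul_left]
          congr 1
          rw [← tsum_geometric_of_lt_one (Real.exp_pos _).le (hlt m), ← tsum_mul_left]
          exact tsum_congr fun k => hterm m k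
        rw [e1]
        have e2 : (1 - Real.exp (-τ))⁻¹ ≤ 1 + 1 / τ := by
          have h1 : Real.exp (-τ) ≤ 1 / (1 + τ) := by
            rw [Real.exp_neg, ← one_div]
            apply one_div_le_one_div_of_le (by linarith)
            have := Real.add_one_le_exp τ
            linarith
          have h2 : τ / (1 + τ) ≤ 1 - Real.exp (-τ) := by
            have : τ / (1 + τ) = 1 - 1 / (1 + τ) := by field_simp; ring
            linarith
          calc (1 - Real.exp (-τ))⁻¹ ≤ (τ / (1 + τ))⁻¹ := inv_anti₀ (by positivity) h2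
            _ = 1 + 1 / τ := by field_simp; ring
        have hm0 : (0 : ℝ) ≤ m := Nat.cast_nonneg m
        have e3 : (1 + 1 / σ (m + 1))⁻¹ * (1 + 1 / τ) ≤ 2 * ((m + 2 : ℕ) : ℝ) ^ 2 := by
          have h1 : 1 / τ = (((m : ℝ) + 1) * ((m : ℝ) + 2)) / Real.log 2 * (1 / σ (m + 1)) := by
            rw [hτdef]
            field_simp
          have h2 : (((m : ℝ) + 1) * ((m : ℝ) + 2)) / Real.log 2 ≤
              2 * (((m : ℝ) + 1) * ((m : ℝ) + 2)) := by
            rw [div_le_iff₀ hl2]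
            have h3 := log_two_ge
            have h4 : 0 ≤ (((m : ℝ) + 1) * ((m : ℝ) + 2)) := by positivity
            nlinarith
          have h5 : 0 < 1 / σ (m + 1) := by positivity
          rw [inv_mul_le_iff₀ (by positivity), h1]
          have h6 : 1 ≤ 2 * ((m + 2 : ℕ) : ℝ) ^ 2 := by
            push_cast
            nlinarith
          have h7 : 2 * (((m : ℝ) + 1) * ((m : ℝ) + 2)) ≤ 2 * ((m + 2 : ℕ) : ℝ) ^ 2 := by
            push_cast
            nlinarith
          calc 1 + (((m : ℝ) + 1) * ((m : ℝ) + 2)) / Real.log 2 * (1 / σ (m + 1))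
              ≤ 2 * ((m + 2 : ℕ) : ℝ) ^ 2 + (2 * ((m + 2 : ℕ) : ℝ) ^ 2) * (1 / σ (m + 1)) := by
                have h8 := h2.trans h7
                have h9 := mul_le_mul_of_nonneg_right h8 h5.le
                linarith
            _ = (1 + 1 / σ (m + 1)) * (2 * ((m + 2 : ℕ) : ℝ) ^ 2) := by ring
        calc (3 / 5 : ℝ) ^ m * ((1 + 1 / σ (m + 1))⁻¹ * (1 - Real.exp (-τ))⁻¹)
            ≤ (3 / 5 : ℝ) ^ m * ((1 + 1 / σ (m + 1))⁻¹ * (1 + 1 / τ)) := by gcongr
          _ ≤ (3 / 5 : ℝ) ^ m * (2 * ((m + 2 : ℕ) : ℝ) ^ 2) := by gcongr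
          _ = _ := by ring
      have hS : Summable fun m : ℕ => 2 * (((m + 2 : ℕ) : ℝ) ^ 2 * (3 / 5 : ℝ) ^ m) := by
        have h1 : Summable fun m : ℕ => ((m : ℝ) ^ 2 * (3 / 5 : ℝ) ^ m : ℝ) :=
          summable_pow_mul_geometric_of_norm_lt_one 2 (by
            rw [Real.norm_eq_abs, abs_of_nonneg (by norm_num)]; norm_num)
        have h2 := ((summable_nat_add_iff
          (f := fun m : ℕ => ((m : ℝ) ^ 2 * (3 / 5 : ℝ) ^ m : ℝ)) 2).2 h1).mul_left (2 * (25 / 9))
        refine h2.congr fun m => ?_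
        rw [pow_add (3 / 5 : ℝ) m 2]
        ring
      exact Summable.of_nonneg_of_le (fun m => tsum_nonneg fun k => by positivity) hgeo hS

/-- the error term `(1 + ε) n (n + 1) log (2 + log H)`, with one null set for all `ε` -/
theorem loglog_all : ∀ᵐ ξ : ℝ, ∀ ε : ℝ, 0 < ε → ∃ C : ℝ, ∀ P : ℤ[X], 1 ≤ P.natDegree →
      C ≤ max (P.natDegree : ℝ) (height P : ℝ) →
      Real.exp (-(P.natDegree * Real.log (height P)) -
        (1 + ε) * (P.natDegree * (P.natDegree + 1)) * Real.log (2 + Real.log (height P)) -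
        3 * ((P.natDegree : ℝ) + 1) ^ 3) < |aeval ξ P| := by
  have h : ∀ᵐ ξ : ℝ, ∀ j : ℕ, ∃ C : ℝ, ∀ P : ℤ[X], 1 ≤ P.natDegree →
      C ≤ max (P.natDegree : ℝ) (height P : ℝ) →
      Real.exp (-(P.natDegree * Real.log (height P)) -
        (1 + 1 / ((j : ℝ) + 1)) * (P.natDegree * (P.natDegree + 1)) *
          Real.log (2 + Real.log (height P)) -
        3 * ((P.natDegree : ℝ) + 1) ^ 3) < |aeval ξ P| := by
    rw [ae_all_iff]
    intro j
    exact loglog (by positivity)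
  filter_upwards [h] with ξ hξ ε hε
  obtain ⟨j, hj⟩ := exists_nat_one_div_lt hε
  obtain ⟨C, hC⟩ := hξ j
  refine ⟨C, fun P hP1 hPC => lt_of_le_of_lt (Real.exp_le_exp.2 ?_) (hC P hP1 hPC)⟩
  have hlog : 0 ≤ Real.log (height P) := Real.log_natCast_nonneg _
  have hll : 0 ≤ Real.log (2 + Real.log (height P)) := Real.log_nonneg (by linarith)
  have h1 : (1 + 1 / ((j : ℝ) + 1)) * ((P.natDegree : ℝ) * (P.natDegree + 1)) *
      Real.log (2 + Real.log (height P)) ≤ (1 + ε) * ((P.natDegree : ℝ) * (P.natDegree + 1)) *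
      Real.log (2 + Real.log (height P)) := by
    gcongr
  linarith

/-- A Khintchine-type convergence theorem for integer polynomials, uniform in the degree.

Let `ψ n H > 0` (`n, H ≥ 1`) be nonincreasing in `H`, with `ψ n 1 ≤ 1` and `ψ n H < 1` for `H ≥ 2`,
and `∑_{n ≥ 1} (3/5)^(n-1) ∑_{k ≥ 0} ψ n (2^k) ^ (1 / (n (n + 1))) < ∞`. Then for almost every real
`ξ` there is `C` such that `|P(ξ)| > ψ n H * H^(-n) * exp (-3 (n + 1)^3)` for all integer polynomials
`P` of degree `n ≥ 1` and height `H` with `max (n, H) ≥ C`.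

With `ψ n H = H^(-ε n)` this is the bound asked for; `loglog_all`, `exponents` and `arbitrary` above
are other cases: `ψ n H = (2 + log H)^(-(1 + ε) n (n + 1))` and `ψ n H = H^(-σ n)`. -/
theorem result (ψ : ℕ → ℕ → ℝ) (hpos : ∀ n H : ℕ, 1 ≤ n → 1 ≤ H → 0 < ψ n H)
    (hone : ∀ n : ℕ, 1 ≤ n → ψ n 1 ≤ 1) (hlt : ∀ n H : ℕ, 1 ≤ n → 2 ≤ H → ψ n H < 1)
    (hanti : ∀ n H H' : ℕ, 1 ≤ n → 1 ≤ H → H ≤ H' → ψ n H' ≤ ψ n H)
    (hsum : Summable fun p : ℕ × ℕ => (3 / 5 : ℝ) ^ p.1 *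
      ψ (p.1 + 1) (2 ^ p.2) ^ (1 / (((p.1 : ℝ) + 1) * ((p.1 : ℝ) + 2)))) :
    ∀ᵐ ξ : ℝ, ∃ C : ℝ, ∀ P : ℤ[X], 1 ≤ P.natDegree →
      C ≤ max (P.natDegree : ℝ) (height P : ℝ) →
      ψ P.natDegree (height P) / (height P : ℝ) ^ P.natDegree *
        Real.exp (-(3 * ((P.natDegree : ℝ) + 1) ^ 3)) < |aeval ξ P| := by
  have hmain := general (s := fun n k => -Real.log (ψ n (2 ^ k))) ?_ ?_ ?_
  · filter_upwards [hmain] with ξ hξ
    obtain ⟨C, hC⟩ := hξ
    refine ⟨C, fun P hP1 hPC => ?_⟩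
    refine lt_of_le_of_lt ?_ (hC P hP1 hPC)
    have hP0 : P ≠ 0 := by
      intro h
      rw [h, natDegree_zero] at hP1
      omega
    have hH1 := one_le_height hP0
    have hH0 : (0 : ℝ) < height P := by exact_mod_cast hH1
    have hk1 : 2 ^ (Nat.log 2 (height P)) ≤ height P := Nat.pow_log_le_self 2 (by omega)
    have hk0 : 1 ≤ 2 ^ (Nat.log 2 (height P)) := Nat.one_le_two_pow
    have h1 := hanti _ _ _ hP1 hk0 hk1
    have h2 := hpos _ _ hP1 hk0
    have h3 : Real.exp (-(P.natDegree * Real.log (height P)) -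
        -Real.log (ψ P.natDegree (2 ^ Nat.log 2 (height P))) -
        3 * ((P.natDegree : ℝ) + 1) ^ 3) = ψ P.natDegree (2 ^ Nat.log 2 (height P)) /
        (height P : ℝ) ^ P.natDegree * Real.exp (-(3 * ((P.natDegree : ℝ) + 1) ^ 3)) := by
      have h4 : (height P : ℝ) ^ P.natDegree = Real.exp (P.natDegree * Real.log (height P)) := by
        rw [Real.exp_nat_mul, Real.exp_log hH0]
      rw [h4, div_eq_mul_inv, ← Real.exp_neg]
      conv_rhs => rw [← Real.exp_log h2, ← Real.exp_add, ← Real.exp_add]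
      congr 1
      ring
    rw [h3]
    gcongr
  · intro n hn
    have h1 := Real.log_nonpos (hpos n 1 hn le_rfl).le (hone n hn)
    simpa using h1
  · intro n k hn hk
    have h2 : 2 ≤ 2 ^ k := by
      calc 2 = 2 ^ 1 := (pow_one 2).symm
        _ ≤ 2 ^ k := Nat.pow_le_pow_right (by norm_num) hk
    have h1 := Real.log_neg (hpos n (2 ^ k) hn (by omega)) (hlt n (2 ^ k) hn h2)
    linarith
  · refine hsum.congr fun p => ?_
    have h1 := hpos (p.1 + 1) (2 ^ p.2) (by omega) Nat.one_le_two_pow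
    rw [Real.rpow_def_of_pos h1]
    congr 2
    ring

end Pool.Agent.Results.MP_c5a493_nt.KhintchineTypeUniform
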